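import Pool.Agent.H34.ES.Def

/-! # ER.Box : exterior products of zero-cycles `z_0 × ... × z_(k-1)` as a multilinear map, alternating sums -/

namespace ES

open H68.BB

/-- the exterior product of zero-cycles: the coefficient of the tuple `P` is `∏ i, z i (P i)` -/
noncomputable def box {K : Type} {s k : ℕ} (z : Fin k → (Pt s K →₀ ℤ)) : (Fin k → Pt s K) →₀ ℤ := by
  classical
  exact Finsupp.onFinset (Fintype.piFinset (fun i => (z i).support)) (fun P => ∏ i, z i (P i)) (by
    intro P hP
    rw [Fintype.mem_piFinset]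
    intro i
    rw [Finsupp.mem_support_iff]
    intro h
    exact hP (Finset.prod_eq_zero (Finset.mem_univ i) h))

theorem box_apply {K : Type} {s k : ℕ} (z : Fin k → (Pt s K →₀ ℤ)) (P : Fin k → Pt s K) :
    box z P = ∏ i, z i (P i) := rfl

private theorem box_upd {K : Type} {s k : ℕ} (inst : DecidableEq (Fin k)) (z : Fin k → (Pt s K →₀ ℤ)) (i : Fin k)
    (x : Pt s K →₀ ℤ) (P : Fin k → Pt s K) :
    ∏ j, (@Function.update _ _ inst z i x j) (P j) = x (P i) * ∏ j ∈ Finset.univ.erase i, z j (P j) := by
  rw [← Finset.mul_prod_erase Finset.univ _ (Finset.mem_univ i), Function.update_self]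
  congr 1
  refine Finset.prod_congr rfl fun j hj => ?_
  rw [Function.update_of_ne (Finset.ne_of_mem_erase hj)]

/-- the exterior product as a multilinear map -/
noncomputable def boxM (k s : ℕ) (K : Type) :
    MultilinearMap ℤ (fun _ : Fin k => Pt s K →₀ ℤ) ((Fin k → Pt s K) →₀ ℤ) where
  toFun := box
  map_update_add' := by
    intro inst z i x y
    ext P
    rw [Finsupp.add_apply, box_apply, box_apply, box_apply, box_upd, box_upd, box_upd, Finsupp.add_apply, add_mul]
  map_update_smul' := by
    intro inst z i c x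
    ext P
    rw [Finsupp.smul_apply, box_apply, box_apply, box_upd, box_upd, Finsupp.smul_apply, smul_eq_mul, smul_eq_mul, mul_assoc]

theorem boxM_apply {K : Type} {s k : ℕ} (z : Fin k → (Pt s K →₀ ℤ)) : boxM k s K z = box z := rfl

/-- the point `P` as a zero-cycle on `W` -/
noncomputable def dl {K : Type} {s : ℕ} (P : Pt s K) : Pt s K →₀ ℤ := Finsupp.single P 1

variable {K : Type} [Field K] {s k : ℕ}

omit [Field K] in
theorem box_dl (P : Fin k → Pt s K) : box (fun i => dl (P i)) = Finsupp.single P 1 := by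
  classical
  ext Q
  rw [box_apply]
  unfold dl
  by_cases h : P = Q
  · subst h
    rw [Finsupp.single_eq_same]
    refine Finset.prod_eq_one fun i _ => ?_
    rw [Finsupp.single_eq_same]
  · rw [Finsupp.single_eq_of_ne (fun h1 => h h1.symm)]
    obtain ⟨i, hi⟩ := Function.ne_iff.1 h
    refine Finset.prod_eq_zero (Finset.mem_univ i) ?_
    rw [Finsupp.single_eq_of_ne (fun h1 => hi h1.symm)]

/-- `(P_0 - o) × ... × (P_(k-1) - o)` -/
theorem box_sub (P : Fin k → Pt s K) : box (fun i => dl (P i) - dl (o s K)) = prod P := by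
  classical
  rw [← boxM_apply]
  have h := (boxM k s K).map_add_univ (fun _ => -dl (o s K)) (fun i => dl (P i))
  have e : (fun i => dl (P i) - dl (o s K)) = (fun _ => -dl (o s K)) + (fun i => dl (P i)) := by
    funext i
    rw [Pi.add_apply, sub_eq_add_neg, add_comm]
  rw [e, h]
  unfold prod
  refine Finset.sum_congr rfl fun J _ => ?_
  have h1 : (J.piecewise (fun _ => -dl (o s K)) (fun i => dl (P i)) : Fin k → (Pt s K →₀ ℤ)) =
      fun i => (if i ∈ J then (-1 : ℤ) else 1) • dl (if i ∈ J then o s K else P i) := by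
    funext i
    unfold Finset.piecewise
    split_ifs
    · rw [neg_one_zsmul]
    · rw [one_zsmul]
  rw [h1, (boxM k s K).map_smul_univ, boxM_apply, box_dl]
  congr 1
  rw [Finset.prod_ite, Finset.prod_const_one, mul_one, Finset.prod_const]
  congr 2
  ext i
  simp

/-- the alternating sum of the exterior products -/
noncomputable def altz (z : Fin k → (Pt s K →₀ ℤ)) : Cyc k s K :=
  ∑ σ : Equiv.Perm (Fin k), (Equiv.Perm.sign σ : ℤ) • box (fun i => z (σ i))

theorem alt_eq_altz (P : Fin k → Pt s K) : alt P = altz (fun i => dl (P i) - dl (o s K)) := by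
  unfold alt altz
  refine Finset.sum_congr rfl fun σ _ => ?_
  rw [← box_sub]

/-- a zero-cycle of degree zero is the sum of the `z(P) ([P] - [o])` -/
theorem deg_zero {z : Pt s K →₀ ℤ} (h : (z.sum fun _ c => c) = 0) :
    z = ∑ P ∈ z.support, z P • (dl P - dl (o s K)) := by
  have h1 : z = ∑ P ∈ z.support, z P • dl P := by
    conv_lhs => rw [← Finsupp.sum_single z]
    unfold Finsupp.sum dl
    refine Finset.sum_congr rfl fun P _ => ?_
    rw [Finsupp.smul_single, smul_eq_mul, mul_one]
  have h2 : ∑ P ∈ z.support, z P • (dl P - dl (o s K)) = ∑ P ∈ z.support, z P • dl P := by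
    simp only [smul_sub]
    rw [Finset.sum_sub_distrib, ← Finset.sum_smul]
    unfold Finsupp.sum at h
    rw [h, zero_smul, sub_zero]
  rw [h2]
  exact h1

/-- multilinear expansion -/
theorem altz_eq {z : Fin k → (Pt s K →₀ ℤ)} (h : ∀ i, ((z i).sum fun _ c => c) = 0) :
    altz z = ∑ P ∈ Fintype.piFinset (fun i => (z i).support), (∏ i, z i (P i)) • alt P := by
  classical
  have hbox : ∀ σ : Equiv.Perm (Fin k), box (fun i => z (σ i)) =
      ∑ P ∈ Fintype.piFinset (fun i => (z i).support), (∏ i, z i (P i)) • prod (fun i => P (σ i)) := by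
    intro σ
    have e : (fun i => z (σ i)) = fun i => ∑ Q ∈ (z (σ i)).support, z (σ i) Q • (dl Q - dl (o s K)) := by
      funext i
      exact deg_zero (h (σ i))
    rw [e, ← boxM_apply, (boxM k s K).map_sum_finset (fun i Q => z (σ i) Q • (dl Q - dl (o s K)))]
    refine Finset.sum_bij' (fun r _ => fun i => r (σ.symm i)) (fun P _ => fun i => P (σ i)) ?_ ?_ ?_ ?_ ?_
    · intro r hr
      rw [Fintype.mem_piFinset] at hr ⊢
      intro i
      have := hr (σ.symm i)
      rwa [Equiv.apply_symm_apply] at this
    · intro P hP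
      rw [Fintype.mem_piFinset] at hP ⊢
      intro i
      exact hP (σ i)
    · intro r _
      funext i
      show r (σ.symm (σ i)) = r i
      rw [Equiv.symm_apply_apply]
    · intro P _
      funext i
      show P (σ (σ.symm i)) = P i
      rw [Equiv.apply_symm_apply]
    · intro r _
      rw [(boxM k s K).map_smul_univ (fun i => z (σ i) (r i)) (fun i => dl (r i) - dl (o s K)), boxM_apply, box_sub]
      congr 1
      · rw [← Equiv.prod_comp σ (fun i => z i (r (σ.symm i)))]
        refine Finset.prod_congr rfl fun i _ => ?_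
        rw [Equiv.symm_apply_apply]
      · congr 1
        funext i
        show r i = r (σ.symm (σ i))
        rw [Equiv.symm_apply_apply]
  unfold altz alt
  simp only [hbox, Finset.smul_sum]
  rw [Finset.sum_comm]
  refine Finset.sum_congr rfl fun P _ => ?_
  refine Finset.sum_congr rfl fun σ _ => ?_
  rw [smul_comm]

/-- from tuples of points to zero-cycles of degree zero -/
theorem altz_mem {G : AddSubgroup (Cyc k s K)} {z : Fin k → (Pt s K →₀ ℤ)} (h : ∀ i, ((z i).sum fun _ c => c) = 0)
    (hG : ∀ P : Fin k → Pt s K, (∀ i, P i ∈ (z i).support) → ∃ N : ℕ, 0 < N ∧ N • alt P ∈ G) :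
    ∃ N : ℕ, 0 < N ∧ N • altz z ∈ G := by
  classical
  have key : ∀ S : Finset (Fin k → Pt s K), (∀ P ∈ S, ∃ N : ℕ, 0 < N ∧ N • alt P ∈ G) →
      ∃ N : ℕ, 0 < N ∧ N • ∑ P ∈ S, (∏ i, z i (P i)) • alt P ∈ G := by
    intro S
    induction S using Finset.induction_on with
    | empty =>
      intro _
      refine ⟨1, one_pos, ?_⟩
      rw [Finset.sum_empty, smul_zero]
      exact G.zero_mem
    | insert P S hP ih =>
      intro hS
      obtain ⟨N, hN, h1⟩ := hS P (Finset.mem_insert_self P S)
      obtain ⟨M, hM, h2⟩ := ih (fun Q hQ => hS Q (Finset.mem_insert_of_mem hQ))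
      refine ⟨M * N, Nat.mul_pos hM hN, ?_⟩
      rw [Finset.sum_insert hP, smul_add]
      refine G.add_mem ?_ ?_
      · rw [mul_smul, smul_comm N]
        exact G.nsmul_mem (G.zsmul_mem h1 _) M
      · rw [mul_comm, mul_smul]
        exact G.nsmul_mem h2 N
  rw [altz_eq h]
  exact key _ fun P hP => hG P fun i => Fintype.mem_piFinset.1 hP i

end ES
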