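import Pool.Agent.H71.ER.Orb2

/-! # ER.Orb : the orbits of the group `G_k = {(ε, σ) : ∏ ε = sgn σ}` on `W^k`

`rt k W z = N • z ∈ RatEq k W` for some `N > 0`.  (1) `slot_rat`: relations in one slot of `box z` in `Cyc / RatEq` (not only in `AA`): if `A` is a Galois-stable multiset
of points of `W` over `Om K`, all other slots points of `W`, then the difference of the two limits is in `RatEq k W` (proof of `slot_eq` in `H34/ES/Slot.lean`, with `RatEq` instead of `Rel`).
(2) `neg_rat`: `[.., Q, ..] + [.., -Q, ..] - 2 [.., o, ..] ∈ RatEq k W` (the family `(β, x, ± y)`, `x = t0 + 1/(t - 1)` or similar, see the proof of `sl_neg`; if `β = 0` both points are proportional to `o`).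
(3) `box_congr`: if `z i - z' i` is a combination of the `[Q] + [-Q] - 2 [o]` with `Q` on `W`, and all `z i, z' i` are supported on `W`, then `box z - box z' ∈ RatEq k W` (multilinearity of `boxM`).
(4) `∑_ε pt (ε P) = box ([P_i] + [-P_i])`, `∑_ε (∏ ε) pt (ε P) = box ([P_i] - [-P_i])`, so `2 ∑_{∏ ε = η} pt (ε P) = box ([P_i] + [-P_i]) + η box ([P_i] - [-P_i])`, which is congruent to
`2^k pt (o, .., o) + η 2^k prod P`.  Sum over `σ` with `η = sgn σ`: `2 orb P ≡ 2^k k! pt (o, .., o) + 2^k alt P`. -/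

namespace ES

open H68.BB

variable {K : Type} [Field K] {s k : ℕ}

/-- the point `(β : x : ε y)`, `ε = ± 1` -/
def Pt.sg {F : Type} [Neg F] (e : ℤˣ) (P : Pt s F) : Pt s F := if e = 1 then P else ⟨P.β, P.x, -P.y⟩

/-- the sum over the elements `(ε, σ)` of the group `G_k = {(ε, σ) ∈ {± 1}^k ⋊ S_k : ∏ ε = sgn σ}` of the points
`(ε_0 P_{σ(0)}, .., ε_{k-1} P_{σ(k-1)})` of `W^k` -/
noncomputable def orb (P : Fin k → Pt s K) : Cyc k s K :=
  ∑ σ : Equiv.Perm (Fin k), ∑ ε ∈ (Finset.univ : Finset (Fin k → ℤˣ)).filter (fun ε => ∏ i, ε i = Equiv.Perm.sign σ),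
    pt (fun i => (P (σ i)).sg (ε i))

private theorem units_sum {G : Type} [AddCommGroup G] (F : ℤˣ → G) : ∑ e, F e = F 1 + F (-1) := by
  rw [UnitsInt.univ]
  rw [Finset.sum_insert (by decide), Finset.sum_singleton]

private theorem sg_one (Q : Pt s K) : Q.sg 1 = Q := by
  unfold Pt.sg
  rw [if_pos rfl]

private theorem sg_neg (Q : Pt s K) : Q.sg (-1) = Q.neg := by
  unfold Pt.sg Pt.neg
  rw [if_neg (by decide)]

/-- the sum over the signs with product `η` -/
private theorem signs_sum (Q : Fin k → Pt s K) (η : ℤˣ) :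
    2 • ∑ ε ∈ (Finset.univ : Finset (Fin k → ℤˣ)).filter (fun ε => ∏ i, ε i = η), pt (fun i => (Q i).sg (ε i)) =
      box (fun i => dl (Q i) + dl (Q i).neg) + (η : ℤ) • box (fun i => dl (Q i) - dl (Q i).neg) := by
  classical
  have hA : box (fun i => dl (Q i) + dl (Q i).neg) = ∑ ε : Fin k → ℤˣ, pt (fun i => (Q i).sg (ε i)) := by
    have e : (fun i => dl (Q i) + dl (Q i).neg) = fun i => ∑ e : ℤˣ, dl ((Q i).sg e) := by
      funext i
      rw [units_sum, sg_one, sg_neg]
    rw [e, ← boxM_apply, (boxM k s K).map_sum (fun i (e : ℤˣ) => dl ((Q i).sg e))]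
    refine Finset.sum_congr rfl fun ε _ => ?_
    rw [boxM_apply, box_dl]
    rfl
  have hB : box (fun i => dl (Q i) - dl (Q i).neg) =
      ∑ ε : Fin k → ℤˣ, ((∏ i, ε i : ℤˣ) : ℤ) • pt (fun i => (Q i).sg (ε i)) := by
    have e : (fun i => dl (Q i) - dl (Q i).neg) = fun i => ∑ e : ℤˣ, (e : ℤ) • dl ((Q i).sg e) := by
      funext i
      rw [units_sum, sg_one, sg_neg]
      simp only [Units.val_one, one_smul, Units.val_neg, neg_smul]
      rw [sub_eq_add_neg]
    rw [e, ← boxM_apply, (boxM k s K).map_sum (fun i (e : ℤˣ) => (e : ℤ) • dl ((Q i).sg e))]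
    refine Finset.sum_congr rfl fun ε _ => ?_
    rw [(boxM k s K).map_smul_univ (fun i => ((ε i : ℤˣ) : ℤ)) (fun i => dl ((Q i).sg (ε i))), boxM_apply, box_dl]
    congr 1
    exact (Units.coe_prod (fun i => ε i) Finset.univ).symm
  rw [hA, hB, Finset.smul_sum, Finset.smul_sum, ← Finset.sum_add_distrib, Finset.sum_filter]
  refine Finset.sum_congr rfl fun ε _ => ?_
  have h1 : ((η : ℤˣ) : ℤ) • ((∏ i, ε i : ℤˣ) : ℤ) • pt (fun i => (Q i).sg (ε i)) =
      ((η * ∏ i, ε i : ℤˣ) : ℤ) • pt (fun i => (Q i).sg (ε i)) := by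
    rw [smul_smul, Units.val_mul]
  rw [h1]
  split_ifs with h
  · rw [h, Int.units_mul_self, Units.val_one, one_smul, two_smul]
  · have h2 : η * ∏ i, ε i = -1 := by
      rcases Int.units_eq_one_or (η * ∏ i, ε i) with h3 | h3
      · exfalso
        apply h
        calc ∏ i, ε i = η * (η * ∏ i, ε i) := by rw [← mul_assoc, Int.units_mul_self, one_mul]
          _ = η := by rw [h3, mul_one]
      · exact h3
    rw [h2, Units.val_neg, Units.val_one, neg_smul, one_smul, add_neg_cancel]

theorem orb_rat [IsAlgClosed K] [CharZero K] {W : Wm K s} (hW : W.Ok) {P : Fin k → Pt s K} (hP : ∀ i, OnW W (P i)) :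
    ∃ N : ℕ, 0 < N ∧ N • (2 • orb P - (2 ^ k * k.factorial) • pt (fun _ => o s K) - 2 ^ k • alt P) ∈ RatEq k W := by
  classical
  refine ⟨1, one_pos, ?_⟩
  rw [one_smul, ← QuotientAddGroup.eq_zero_iff]
  have key : ∀ σ : Equiv.Perm (Fin k), (QuotientAddGroup.mk (2 • ∑ ε ∈ (Finset.univ : Finset (Fin k → ℤˣ)).filter
      (fun ε => ∏ i, ε i = Equiv.Perm.sign σ), pt (fun i => (P (σ i)).sg (ε i))) : Cyc k s K ⧸ RatEq k W) =
      QuotientAddGroup.mk ((2 ^ k : ℤ) • pt (fun _ => o s K) +
        (2 ^ k : ℤ) • ((Equiv.Perm.sign σ : ℤ) • prod (fun i => P (σ i)))) := by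
    intro σ
    have hPσ : ∀ i, OnW W (P (σ i)) := fun i => hP _
    have a1 : (fun i => dl (P (σ i)) + dl (P (σ i)).neg) =
        fun i => ∑ a, (fun a : SignType => if a = 0 then (0 : ℤ) else 1) a • dl (pick (P (σ i)) a) := by
      funext i
      rw [sum_sign]
      have p1 : pick (P (σ i)) 1 = P (σ i) := rfl
      have p2 : pick (P (σ i)) (-1) = (P (σ i)).neg := rfl
      rw [p1, p2]
      simp
    have a2 : (fun _ : Fin k => (2 : ℤ) • dl (o s K)) =
        fun i => ∑ a, (fun a : SignType => if a = 0 then (2 : ℤ) else 0) a • dl (pick (P (σ i)) a) := by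
      funext i
      rw [sum_sign]
      have p3 : pick (P (σ i)) 0 = o s K := rfl
      rw [p3]
      simp
    have b1 : (fun i => dl (P (σ i)) - dl (P (σ i)).neg) =
        fun i => ∑ a, (fun a : SignType => (a : ℤ)) a • dl (pick (P (σ i)) a) := by
      funext i
      rw [sum_sign]
      have p1 : pick (P (σ i)) 1 = P (σ i) := rfl
      have p2 : pick (P (σ i)) (-1) = (P (σ i)).neg := rfl
      rw [p1, p2]
      simp [sub_eq_add_neg]
    have b2 : (fun i => (2 : ℤ) • (dl (P (σ i)) - dl (o s K))) =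
        fun i => ∑ a, (fun a : SignType => if a = 1 then (2 : ℤ) else if a = 0 then -2 else 0) a •
          dl (pick (P (σ i)) a) := by
      funext i
      rw [sum_sign]
      have p1 : pick (P (σ i)) 1 = P (σ i) := rfl
      have p3 : pick (P (σ i)) 0 = o s K := rfl
      rw [p1, p3]
      simp [sub_eq_add_neg]
    have c1 := box_congr hW hPσ (fun a : SignType => if a = 0 then (0 : ℤ) else 1)
      (fun a : SignType => if a = 0 then (2 : ℤ) else 0) 1 (by decide) (by decide) (by decide)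
    have c2 := box_congr hW hPσ (fun a : SignType => (a : ℤ))
      (fun a : SignType => if a = 1 then (2 : ℤ) else if a = 0 then -2 else 0) (-1) (by decide) (by decide) (by decide)
    rw [← a1, ← a2] at c1
    rw [← b1, ← b2] at c2
    have d1 : box (fun _ : Fin k => (2 : ℤ) • dl (o s K)) = (2 ^ k : ℤ) • pt (fun _ => o s K) := by
      rw [← boxM_apply, (boxM k s K).map_smul_univ (fun _ => (2 : ℤ)) (fun _ => dl (o s K)), boxM_apply, box_dl,
        Finset.prod_const, Finset.card_univ, Fintype.card_fin]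
      rfl
    have d2 : box (fun i => (2 : ℤ) • (dl (P (σ i)) - dl (o s K))) = (2 ^ k : ℤ) • prod (fun i => P (σ i)) := by
      rw [← boxM_apply, (boxM k s K).map_smul_univ (fun _ => (2 : ℤ)) (fun i => dl (P (σ i)) - dl (o s K)), boxM_apply,
        box_sub, Finset.prod_const, Finset.card_univ, Fintype.card_fin]
    rw [d1] at c1
    rw [d2] at c2
    rw [signs_sum (fun i => P (σ i)), QuotientAddGroup.mk_add, QuotientAddGroup.mk_zsmul, c1, c2,
      ← QuotientAddGroup.mk_zsmul, ← QuotientAddGroup.mk_add, smul_comm]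
  have h1 : (QuotientAddGroup.mk (2 • orb P) : Cyc k s K ⧸ RatEq k W) =
      QuotientAddGroup.mk ((2 ^ k * k.factorial) • pt (fun _ => o s K) + 2 ^ k • alt P) := by
    unfold orb
    rw [Finset.smul_sum]
    have h2 := map_sum (QuotientAddGroup.mk' (RatEq k W)) (fun σ : Equiv.Perm (Fin k) =>
      2 • ∑ ε ∈ (Finset.univ : Finset (Fin k → ℤˣ)).filter
      (fun ε => ∏ i, ε i = Equiv.Perm.sign σ), pt (fun i => (P (σ i)).sg (ε i))) Finset.univ
    have h3 := map_sum (QuotientAddGroup.mk' (RatEq k W)) (fun σ : Equiv.Perm (Fin k) =>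
      (2 ^ k : ℤ) • pt (fun _ : Fin k => o s K) +
        (2 ^ k : ℤ) • ((Equiv.Perm.sign σ : ℤ) • prod (fun i => P (σ i)))) Finset.univ
    refine Eq.trans h2 ?_
    refine Eq.trans (Finset.sum_congr rfl fun σ _ => key σ) ?_
    refine Eq.trans h3.symm ?_
    show (QuotientAddGroup.mk _ : Cyc k s K ⧸ RatEq k W) = QuotientAddGroup.mk _
    congr 1
    rw [Finset.sum_add_distrib, Finset.sum_const, Finset.card_univ, Fintype.card_perm, Fintype.card_fin,
      ← Finset.smul_sum]
    unfold alt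
    congr 1
    rw [mul_comm, mul_smul]
    congr 1
  rw [sub_sub, QuotientAddGroup.mk_sub, h1, sub_self]

end ES
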