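import Pool.Agent.H71.ER.Box
import Pool.Agent.H34.ES.Slot
import Pool.Agent.H34.ES.Fib

/-! # ER.Orb1 : one-slot relations modulo rational equivalence (without the decomposable tuples), complete

`cq W P` is the class of the tuple `P` modulo `RatEq k W`; `slotq`: a Galois stable multiset of points in one slot; `negq`: `[.., Q, ..] + [.., -Q, ..] = 2 [.., o, ..]`. -/

namespace ES

open H68.BB Polynomial
open H67.KH (mem_of_root mem_of_cubic rd_of_mem rd_cst sigma_cst sigma_tt roots_rd roots_sigma)

variable {K : Type} [Field K] {s k : ℕ}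

/-- the class of a tuple modulo rational equivalence -/
noncomputable def cq (W : Wm K s) (P : Fin k → Pt s K) : Cyc k s K ⧸ RatEq k W := QuotientAddGroup.mk (pt P)

variable {W : Wm K s}

private theorem map_update' (σ : Om K ≃ₐ[RatFunc K] Om K) (P : Fin k → Pt s (Om K)) (i : Fin k) (Q : Pt s (Om K)) :
    (fun j => (Function.update P i Q j).map σ) = Function.update (fun j => (P j).map σ) i (Q.map σ) := by
  funext j
  by_cases h : j = i
  · subst h; rw [Function.update_self, Function.update_self]
  · rw [Function.update_of_ne h, Function.update_of_ne h]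

private theorem map_cstT' (σ : Om K ≃ₐ[RatFunc K] Om K) (P : Fin k → Pt s K) :
    (fun j => (cstT P j).map σ) = cstT P := by
  funext j
  exact map_cst σ (P j)

private theorem mk_cycq (S : Multiset (Fin k → Pt s K)) :
    (QuotientAddGroup.mk (cyc S) : Cyc k s K ⧸ RatEq k W) = (S.map (cq W)).sum := by
  have h := map_multiset_sum (QuotientAddGroup.mk' (RatEq k W)) (S.map pt)
  rw [Multiset.map_map] at h
  exact h

/-- relations in one slot modulo `RatEq` -/
theorem slotq {P : Fin k → Pt s K} (hP : ∀ j, OnW W (P j)) (i : Fin k) {A : Multiset (Pt s (Om K))}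
    {B B' : Multiset (Pt s K)} {π π' : Place K (Om K)} (hA : ∀ Q ∈ A, OnW W Q)
    (hG : ∀ σ : Om K ≃ₐ[RatFunc K] Om K, A.map (Pt.map σ) = A) (h : Multiset.Rel (Sp W π) A B)
    (h' : Multiset.Rel (Sp W π') A B') :
    (B.map (fun q => cq W (Function.update P i q))).sum = (B'.map (fun q => cq W (Function.update P i q))).sum := by
  have hsp : ∀ (π : Place K (Om K)) (Q : Pt s (Om K)) (q : Pt s K), Sp W π Q q →
      SpT W π (Function.update (cstT P) i Q) (Function.update P i q) := by
    intro π Q q hq j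
    by_cases hj : j = i
    · subst hj; rw [Function.update_self, Function.update_self]; exact hq
    · rw [Function.update_of_ne hj, Function.update_of_ne hj]; exact Sp_cst π (hP j).1
  have e1 : (B.map (fun q => cq W (Function.update P i q))).sum =
      (QuotientAddGroup.mk (cyc (B.map (fun q => Function.update P i q))) : Cyc k s K ⧸ RatEq k W) := by
    rw [mk_cycq, Multiset.map_map]
    rfl
  have e2 : (B'.map (fun q => cq W (Function.update P i q))).sum =
      (QuotientAddGroup.mk (cyc (B'.map (fun q => Function.update P i q))) : Cyc k s K ⧸ RatEq k W) := by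
    rw [mk_cycq, Multiset.map_map]
    rfl
  rw [e1, e2, QuotientAddGroup.eq]
  refine AddSubgroup.subset_closure ⟨A.map (fun Q => Function.update (cstT P) i Q), π', π,
    B'.map (fun q => Function.update P i q), B.map (fun q => Function.update P i q), ?_, ?_, ?_, ?_, ?_⟩
  · intro T hT j
    obtain ⟨Q, hQ, rfl⟩ := Multiset.mem_map.1 hT
    by_cases hj : j = i
    · subst hj; rw [Function.update_self]; exact hA Q hQ
    · rw [Function.update_of_ne hj]; exact OnW_cst (hP j)
  · intro σ
    rw [Multiset.map_map]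
    have e : ((fun (P : Fin k → Pt s (Om K)) j => (P j).map σ) ∘ fun Q => Function.update (cstT P) i Q) =
        (fun Q => Function.update (cstT P) i Q) ∘ Pt.map σ := by
      funext Q
      simp only [Function.comp]
      rw [map_update', map_cstT']
    rw [e, ← Multiset.map_map, hG σ]
  · rw [Multiset.rel_map]
    exact h'.mono fun Q _ q _ hq => hsp π' Q q hq
  · rw [Multiset.rel_map]
    exact h.mono fun Q _ q _ hq => hsp π Q q hq
  · rw [neg_add_eq_sub]

variable [IsAlgClosed K]

/-- the family of the points with the same `x` -/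
theorem neg_family (hW : W.Ok) {Q : Pt s K} (hQ : OnW W Q) : ∃ (A : Multiset (Pt s (Om K))) (π1 π0 : Place K (Om K)),
    (∀ q ∈ A, OnW W q) ∧ (∀ σ : Om K ≃ₐ[RatFunc K] Om K, A.map (Pt.map σ) = A) ∧
      Multiset.Rel (Sp W π1) A {Q, Q.neg} ∧ Multiset.Rel (Sp W π0) A {o s K, o s K} := by
  obtain ⟨π1, π0, r1, n0, r0, -⟩ := two_places K
  set T0 : Fin s → Om K := fun i => algebraMap K (Om K) (Q.β i) with hT0
  set x := algebraMap K (Om K) Q.x - 1 + (tt K)⁻¹ with hxdef
  have hxV : x ∉ π0.V := by
    intro h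
    apply n0
    have e : (tt K)⁻¹ = x - (algebraMap K (Om K) Q.x - 1) := by rw [hxdef]; ring
    rw [e]
    exact sub_mem h (sub_mem (rd_cst π0 Q.x).mem π0.V.one_mem)
  have hx0 : x ≠ 0 := by
    intro h
    exact hxV (by rw [h]; exact π0.V.zero_mem)
  set z := x ^ 3 - 3 * ev W.a T0 * x - 2 * ev W.b T0 with hz
  set p : (Om K)[X] := X ^ 2 - C z with hp
  have hpm : p.Monic := monic_X_pow_sub_C _ (by norm_num)
  have hp0 : p ≠ 0 := hpm.ne_zero
  have hpd : p.natDegree = 2 := natDegree_X_pow_sub_C
  set f : Om K → Pt s (Om K) := fun y => ⟨T0, x, y⟩ with hf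
  have hroot : ∀ y ∈ p.roots, y ^ 2 = z := by
    intro y hy
    rw [mem_roots hp0, IsRoot.def, hp, eval_sub, eval_pow, eval_X, eval_C, sub_eq_zero] at hy
    exact hy
  have hI : ∀ g ∈ W.I, ev g T0 = 0 := by
    intro g hg
    rw [hT0, ev_cst, hQ.2.1 g hg, map_zero]
  have hon : ∀ y ∈ p.roots, OnW W (⟨T0, x, y⟩ : Pt s (Om K)) := fun y hy =>
    ⟨Or.inr (Or.inl hx0), hI, hroot y hy⟩
  refine ⟨p.roots.map f, π1, π0, ?_, ?_, ?_, ?_⟩
  · intro s hs
    obtain ⟨y, hy, rfl⟩ := Multiset.mem_map.1 hs
    exact hon y hy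
  · intro σ
    have hσx : σ x = x := by
      rw [hxdef, map_add, map_sub, map_one, map_inv₀, sigma_tt, sigma_cst]
    have hσ0 : (fun i => σ (T0 i)) = T0 := funext fun i => sigma_cst σ _
    have hσz : σ z = z := by
      rw [hz, map_sub, map_sub, map_mul, map_mul, map_mul, map_pow, sigma_ev, sigma_ev, hσx, hσ0,
        map_ofNat, map_ofNat]
    have hσp : p.map (σ : Om K →+* Om K) = p := by
      rw [hp, Polynomial.map_sub, Polynomial.map_pow, map_X, map_C]
      congr 2
    have h1 : (p.roots.map f).map (Pt.map σ) = (p.roots.map σ).map f := by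
      rw [Multiset.map_map, Multiset.map_map]
      refine Multiset.map_congr rfl fun y _ => ?_
      simp only [hf, Function.comp_apply]
      rw [Pt.map]
      simp only [hσx, hσ0]
    rw [h1, roots_sigma, hσp]
  · have hx1 : Rd π1.V π1.φ x Q.x := by
      have h := ((rd_cst π1 Q.x).sub Rd.one).add r1
      have e : Q.x - 1 + 1 = Q.x := by ring
      rwa [e] at h
    have hT1 : ∀ i, Rd π1.V π1.φ (T0 i) (Q.β i) := fun i => rd_cst π1 _
    have hz1 : Rd π1.V π1.φ z (Q.y ^ 2) := by
      rw [hQ.2.2]
      exact ((hx1.pow 3).sub ((Rd.three.mul (rd_ev W.a hT1)).mul hx1)).sub (Rd.two.mul (rd_ev W.b hT1))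
    have hp'm : (X ^ 2 - C (Q.y ^ 2) : K[X]).Monic := monic_X_pow_sub_C _ (by norm_num)
    have hp'r : (X ^ 2 - C (Q.y ^ 2) : K[X]).roots = {Q.y, -Q.y} := by
      have e : (X ^ 2 - C (Q.y ^ 2) : K[X]) = (X - C Q.y) * (X - C (-Q.y)) := by
        rw [map_neg, map_pow]; ring
      rw [e, roots_mul (mul_ne_zero (X_sub_C_ne_zero _) (X_sub_C_ne_zero _)), roots_X_sub_C,
        roots_X_sub_C]
      rfl
    have hrel : Multiset.Rel (Rd π1.V π1.φ) p.roots (X ^ 2 - C (Q.y ^ 2) : K[X]).roots := by
      refine roots_rd hp'm.ne_zero ?_ ?_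
      · intro i
        rw [hp, coeff_sub, coeff_sub, coeff_X_pow, coeff_X_pow, coeff_C, coeff_C]
        refine Rd.sub ?_ ?_
        · split_ifs
          · exact Rd.one
          · exact Rd.zero
        · split_ifs
          · exact hz1
          · exact Rd.zero
      · rw [hpd, natDegree_X_pow_sub_C]
    rw [hp'r] at hrel
    have e3 : ({Q, Q.neg} : Multiset (Pt s K)) =
        ({Q.y, -Q.y} : Multiset K).map (fun y => (⟨Q.β, Q.x, y⟩ : Pt s K)) := by
      simp only [Multiset.insert_eq_cons, Multiset.map_cons, Multiset.map_singleton]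
      rfl
    rw [e3, Multiset.rel_map]
    refine hrel.mono fun y _ y' hy' hyy => ?_
    refine Sp_fin ?_ hT1 hx1 hyy
    have hy2 : y' = Q.y ∨ y' = -Q.y := by simpa using hy'
    rcases hQ.1 with h | h | h
    · exact Or.inl h
    · exact Or.inr (Or.inl h)
    · refine Or.inr (Or.inr ?_)
      show y' ≠ 0
      rcases hy2 with e | e
      · rw [e]; exact h
      · rw [e]; exact neg_ne_zero.2 h
  · have hcard : Multiset.card p.roots = 2 := by
      rw [IsAlgClosed.card_roots_eq_natDegree, hpd]
    obtain ⟨y1, y2, hy⟩ := Multiset.card_eq_two.1 hcard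
    rw [hy]
    simp only [Multiset.insert_eq_cons, Multiset.map_cons, Multiset.map_singleton]
    have h1 : y1 ∈ p.roots := by rw [hy]; simp
    have h2 : y2 ∈ p.roots := by rw [hy]; simp
    refine Multiset.Rel.cons ?_ (Multiset.Rel.cons ?_ Multiset.Rel.zero)
    · exact Sp_inf hW (hon y1 h1) (fun _ => (rd_cst π0 _).mem) hxV
    · exact Sp_inf hW (hon y2 h2) (fun _ => (rd_cst π0 _).mem) hxV

/-- `P` and `-P` -/
theorem negq (hW : W.Ok) {P : Fin k → Pt s K} (hP : ∀ j, OnW W (P j)) (i : Fin k) {Q : Pt s K} (hQ : OnW W Q) :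
    cq W (Function.update P i Q) + cq W (Function.update P i Q.neg) = 2 • cq W (Function.update P i (o s K)) := by
  obtain ⟨A, π1, π0, h1, h2, h3, h4⟩ := neg_family hW hQ
  have h := slotq hP i h1 h2 h3 h4
  simp only [Multiset.insert_eq_cons, Multiset.map_cons, Multiset.map_singleton, Multiset.sum_cons,
    Multiset.sum_singleton] at h
  rw [h, two_nsmul]

end ES
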