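import Pool.Agent.H71.ER.Orb1

/-! # ER.Orb2 : change of weights in all slots, complete

`weight_eq`: `c : (Fin k → V) → G`, weights `g`, `g'` with the same sums in every slot; then `∑ ∏ g(x_j) c(x) = ∑ ∏ g'(x_j) c(x)`.
`V = SignType`: the values `P`, `-P`, `o`. -/

namespace ES

open H68.BB

section
variable {G V : Type} [AddCommGroup G] [Fintype V]

theorem weight_eq (g g' : V → ℤ) : ∀ (k : ℕ) (c : (Fin k → V) → G),
    (∀ (x : Fin k → V) (j : Fin k), ∑ a, g a • c (Function.update x j a) = ∑ a, g' a • c (Function.update x j a)) →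
    ∑ x : Fin k → V, (∏ j, g (x j)) • c x = ∑ x : Fin k → V, (∏ j, g' (x j)) • c x := by
  intro k
  induction k with
  | zero =>
    intro c _
    refine Finset.sum_congr rfl fun x _ => ?_
    rw [Finset.univ_eq_empty, Finset.prod_empty, Finset.prod_empty]
  | succ k ih =>
    intro c h
    have e : ∀ g : V → ℤ, ∑ x : Fin (k + 1) → V, (∏ j, g (x j)) • c x =
        ∑ x' : Fin k → V, (∏ j, g (x' j)) • ∑ a : V, g a • c (Fin.cons a x') := by
      intro g
      rw [← Fintype.sum_equiv (Fin.consEquiv (fun _ => V))
        (fun q => (∏ j, g ((Fin.cons q.1 q.2 : Fin (k + 1) → V) j)) • c (Fin.cons q.1 q.2)) _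
        (fun q => rfl), Fintype.sum_prod_type, Finset.sum_comm]
      refine Finset.sum_congr rfl fun x' _ => ?_
      rw [Finset.smul_sum]
      refine Finset.sum_congr rfl fun a _ => ?_
      rw [Fin.prod_univ_succ]
      simp only [Fin.cons_zero, Fin.cons_succ]
      rw [smul_smul, mul_comm]
    rw [e g, e g']
    rw [ih (fun x' => ∑ a : V, g a • c (Fin.cons a x'))]
    · refine Finset.sum_congr rfl fun x' _ => ?_
      congr 1
      rcases isEmpty_or_nonempty V with hV | ⟨⟨v⟩⟩
      · simp
      · have h1 := h (Fin.cons v x') 0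
        simp only [Fin.update_cons_zero] at h1
        exact h1
    · intro x j
      simp only [Finset.smul_sum]
      rw [Finset.sum_comm, Finset.sum_comm (f := fun a b => g' a • g b • c (Fin.cons b (Function.update x j a)))]
      refine Finset.sum_congr rfl fun b _ => ?_
      have h1 := h (Fin.cons b x) j.succ
      simp only [← Fin.cons_update] at h1
      have e2 : ∀ g1 : V → ℤ, ∑ a, g1 a • g b • c (Fin.cons b (Function.update x j a)) =
          g b • ∑ a, g1 a • c (Fin.cons b (Function.update x j a)) := by
        intro g1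
        rw [Finset.smul_sum]
        refine Finset.sum_congr rfl fun a _ => ?_
        rw [smul_smul, smul_smul, mul_comm]
      rw [e2, e2, h1]

end

variable {K : Type} [Field K] {s k : ℕ}

/-- `P`, `-P` or `o` -/
def pick (P : Pt s K) (a : SignType) : Pt s K :=
  match a with
  | SignType.pos => P
  | SignType.neg => P.neg
  | SignType.zero => o s K

theorem sum_sign {G : Type} [AddCommGroup G] (F : SignType → G) : ∑ a, F a = F 1 + F (-1) + F 0 := by
  rw [show (Finset.univ : Finset SignType) = {0, -1, 1} from rfl]
  rw [Finset.sum_insert (by decide), Finset.sum_insert (by decide), Finset.sum_singleton]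
  abel

/-- expansion of the exterior product -/
theorem box_pick (g : SignType → ℤ) (P : Fin k → Pt s K) :
    box (fun i => ∑ a, g a • dl (pick (P i) a)) = ∑ x : Fin k → SignType, (∏ j, g (x j)) • pt (fun j => pick (P j) (x j)) := by
  classical
  rw [← boxM_apply, (boxM k s K).map_sum (fun i a => g a • dl (pick (P i) a))]
  refine Finset.sum_congr rfl fun x _ => ?_
  rw [(boxM k s K).map_smul_univ (fun i => g (x i)) (fun i => dl (pick (P i) (x i))), boxM_apply, box_dl]
  rfl

variable {W : Wm K s}

theorem OnW_pick (hW : W.Ok) {P : Pt s K} (hP : OnW W P) (a : SignType) : OnW W (pick P a) := by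
  match a with
  | SignType.pos => exact hP
  | SignType.neg => exact OnW_neg hP
  | SignType.zero => exact OnW_o hW K

/-- the exterior products with weights `g` and `g'` are rationally equivalent if `(g - g')(±1) = -(g - g')(0) / 2` -/
theorem box_congr [IsAlgClosed K] (hW : W.Ok) {P : Fin k → Pt s K} (hP : ∀ i, OnW W (P i)) (g g' : SignType → ℤ) (d : ℤ)
    (h1 : g 1 = g' 1 + d) (h2 : g (-1) = g' (-1) + d) (h3 : g 0 = g' 0 - 2 * d) :
    (QuotientAddGroup.mk (box (fun i => ∑ a, g a • dl (pick (P i) a))) : Cyc k s K ⧸ RatEq k W) =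
      QuotientAddGroup.mk (box (fun i => ∑ a, g' a • dl (pick (P i) a))) := by
  have e : ∀ g : SignType → ℤ, (QuotientAddGroup.mk (box (fun i => ∑ a, g a • dl (pick (P i) a))) :
      Cyc k s K ⧸ RatEq k W) = ∑ x : Fin k → SignType, (∏ j, g (x j)) • cq W (fun j => pick (P j) (x j)) := by
    intro g
    rw [box_pick]
    have h := map_sum (QuotientAddGroup.mk' (RatEq k W))
      (fun x : Fin k → SignType => (∏ j, g (x j)) • pt (fun j => pick (P j) (x j))) Finset.univ
    simp only [map_zsmul] at h
    exact h
  rw [e, e]
  refine weight_eq g g' k (fun x => cq W (fun j => pick (P j) (x j))) fun x j => ?_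
  have hup : ∀ a : SignType, (fun l => pick (P l) (Function.update x j a l)) =
      Function.update (fun l => pick (P l) (x l)) j (pick (P j) a) := by
    intro a
    funext l
    by_cases hl : l = j
    · subst hl
      rw [Function.update_self, Function.update_self]
    · rw [Function.update_of_ne hl, Function.update_of_ne hl]
  simp only [hup]
  have hn := negq hW (P := fun l => pick (P l) (x l)) (fun l => OnW_pick hW (hP l) _) j (Q := P j) (hP j)
  rw [sum_sign, sum_sign, h1, h2, h3]
  have p1 : pick (P j) 1 = P j := rfl
  have p2 : pick (P j) (-1) = (P j).neg := rfl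
  have p3 : pick (P j) 0 = o s K := rfl
  rw [p1, p2, p3]
  set A := cq W (Function.update (fun l => pick (P l) (x l)) j (P j)) with hA
  set B := cq W (Function.update (fun l => pick (P l) (x l)) j (P j).neg) with hB
  set C := cq W (Function.update (fun l => pick (P l) (x l)) j (o s K)) with hC
  have e2 : (g' 1 + d) • A + (g' (-1) + d) • B + (g' 0 - 2 * d) • C =
      (g' 1 • A + g' (-1) • B + g' 0 • C) + d • ((A + B) - 2 • C) := by
    module
  rw [e2, hn, sub_self, smul_zero, add_zero]

end ES
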